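import Mathlib
import Pool.Agent.H1.RepF

open Filter Topology MeasureTheory AddCircle
open scoped ENNReal

namespace Pool.Agent.Results.MP_459ac8_an.ZeroDensity

/-- The Hardy space `H^p`, as the closure in `L^p` of the circle of the analytic polynomials. -/
noncomputable def Hp (p : ℝ≥0∞) [Fact (1 ≤ p)] :
    Submodule ℂ (Lp ℂ p (haarAddCircle (T := 1))) :=
  (Submodule.span ℂ (Set.range fun n : ℕ => fourierLp (T := 1) p n)).topologicalClosure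

theorem result (p : ℝ≥0∞) [Fact (1 ≤ p)] (hp : p ≠ ∞) :
    ∃ Λ : ℕ → ℂ, Function.Injective Λ ∧ (∀ n, ‖Λ n‖ < 1) ∧
      (∀ r < (1 : ℝ), {n | ‖Λ n‖ < r}.Finite) ∧
      Tendsto (fun r : ℝ => (1 - r) * ({n | ‖Λ n‖ < r}.ncard : ℝ)) (𝓝[<] 1) (𝓝 0) ∧
      ∃ k : ℕ → Lp ℂ p (haarAddCircle (T := 1)),
        (∀ n, k n =ᵐ[haarAddCircle]
          fun x => 1 / (1 - (starRingEnd ℂ) (Λ n) * fourier 1 x)) ∧
        ∀ f ∈ Hp p, ∃ c : ℕ → ℂ,
          Tendsto (fun N => ∑ n ∈ Finset.range N, c n • k n) atTop (𝓝 f) := by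
  obtain ⟨Λ, h1, h2, h3, h4, k, h5, h6⟩ := H1.RepF.main p hp
  refine ⟨fun n => (starRingEnd ℂ) (Λ n), fun n m h => h1 ((starRingEnd ℂ).injective h), ?_, ?_,
    ?_, k, ?_, h6⟩
  · simpa using h2
  · simpa using h3
  · simpa using h4
  · simpa using h5

end Pool.Agent.Results.MP_459ac8_an.ZeroDensity
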